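import Mathlib

/-!
# Stably annihilated modules: definitions for MP_4104ad_al
-/

open CategoryTheory

universe u

namespace R688.ST

/-- The depth of a finitely generated module `N` over a noetherian local ring `A`: the supremum
of the lengths of the (weakly) `N`-regular sequences of elements of the maximal ideal. For
`N ≠ 0` finitely generated, Nakayama's lemma shows that such a weakly regular sequence is regular;
for `N = 0` the depth is `⊤`. -/
noncomputable def depth (A : Type u) [CommRing A] [IsLocalRing A] (N : Type u) [AddCommGroup N]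
    [Module A N] : ℕ∞ :=
  ⨆ (rs : List A) (_ : (∀ r ∈ rs, r ∈ IsLocalRing.maximalIdeal A) ∧
    RingTheory.Sequence.IsWeaklyRegular N rs), (rs.length : ℕ∞)

variable (R : Type u) [CommRing R]

/-- `C(R)`: the finitely generated modules `M` with `depth M_𝔭 ≥ depth R_𝔭` for all primes. -/
def IsC (M : ModuleCat.{u} R) : Prop :=
  Module.Finite R M ∧ ∀ (𝔭 : Ideal R) [𝔭.IsPrime],
    depth (Localization.AtPrime 𝔭) (Localization.AtPrime 𝔭) ≤
      depth (Localization.AtPrime 𝔭) (LocalizedModule 𝔭.primeCompl M)

/-- `a` belongs to the stable annihilator of `M`: multiplication by `a` on `M` is a composite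
`M → P → M` with `P` a (finitely generated) projective module. -/
def StablyKills (a : R) (M : ModuleCat.{u} R) : Prop :=
  ∃ P : ModuleCat.{u} R, Module.Finite R P ∧ Module.Projective R P ∧
    ∃ (f : M →ₗ[R] P) (g : P →ₗ[R] M), ∀ m : M, g (f m) = a • m

/-- `C_I(R)`: the modules in `C(R)` whose stable annihilator contains `I`. -/
def IsCI (I : Ideal R) (M : ModuleCat.{u} R) : Prop :=
  IsC R M ∧ ∀ a ∈ I, StablyKills R a M

/-- `C_{V(I)}(R)`: the modules in `C(R)` which are locally free outside `V(I)`. -/
def IsCVI (I : Ideal R) (M : ModuleCat.{u} R) : Prop :=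
  IsC R M ∧ ∀ (𝔭 : Ideal R) [𝔭.IsPrime], ¬ I ≤ 𝔭 →
    Module.Free (Localization.AtPrime 𝔭) (LocalizedModule 𝔭.primeCompl M)

/-- A class of finitely generated modules which is closed under isomorphisms, finite direct sums,
direct summands and extensions. -/
structure IsExtStable (Q : ModuleCat.{u} R → Prop) : Prop where
  finite : ∀ X, Q X → Module.Finite R X
  iso : ∀ X Y : ModuleCat.{u} R, Nonempty (X ≃ₗ[R] Y) → Q X → Q Y
  zero : ∀ X : ModuleCat.{u} R, Subsingleton X → Q X
  sum : ∀ X Y : ModuleCat.{u} R, Q X → Q Y → Q (ModuleCat.of R (X × Y))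
  summand : ∀ X Y : ModuleCat.{u} R, Q (ModuleCat.of R (X × Y)) → Q X
  ext : ∀ (X Z Y : ModuleCat.{u} R) (f : X →ₗ[R] Z) (g : Z →ₗ[R] Y), Function.Injective f →
    Function.Surjective g → Function.Exact f g → Q X → Q Y → Q Z

/-- `ext_R 𝒳`: the least class of finitely generated modules containing `𝒳` that is stable under
finite direct sums, direct summands and extensions. -/
def ExtClosure (𝒳 : ModuleCat.{u} R → Prop) (M : ModuleCat.{u} R) : Prop :=
  ∀ Q : ModuleCat.{u} R → Prop, IsExtStable R Q → (∀ X, 𝒳 X → Q X) → Q M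

end R688.ST
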