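import Pool.Agent.R688.ST.Defs

open CategoryTheory Abelian RingTheory.Sequence

universe u

namespace R688.ST

variable {A : Type u} [CommRing A] [IsLocalRing A]

lemma le_depth_of_list {N : Type u} [AddCommGroup N] [Module A N] {rs : List A}
    (h1 : ∀ r ∈ rs, r ∈ IsLocalRing.maximalIdeal A) (h2 : IsWeaklyRegular N rs) :
    (rs.length : ℕ∞) ≤ depth A N :=
  le_iSup₂ (f := fun (rs : List A) (_ : (∀ r ∈ rs, r ∈ IsLocalRing.maximalIdeal A) ∧
    IsWeaklyRegular N rs) => (rs.length : ℕ∞)) rs ⟨h1, h2⟩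

lemma exists_list_of_le {N : Type u} [AddCommGroup N] [Module A N] {n : ℕ}
    (h : (n : ℕ∞) ≤ depth A N) :
    ∃ rs : List A, (∀ r ∈ rs, r ∈ IsLocalRing.maximalIdeal A) ∧ IsWeaklyRegular N rs ∧
      n ≤ rs.length := by
  rcases n with _ | n
  · exact ⟨[], by simp, IsWeaklyRegular.nil A N, Nat.zero_le _⟩
  · by_contra hcon
    push Not at hcon
    have h1 : depth A N ≤ (n : ℕ∞) := by
      refine iSup₂_le fun rs hrs => ?_
      have := hcon rs hrs.1 hrs.2
      exact_mod_cast (by omega : rs.length ≤ n)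
    have h2 := h.trans h1
    have h3 : n + 1 ≤ n := by exact_mod_cast h2
    omega

lemma weaklyRegular_of_subsingleton {N : Type u} [AddCommGroup N] [Module A N] [Subsingleton N]
    (n : ℕ) : IsWeaklyRegular N (List.replicate n (0 : A)) := by
  refine ⟨fun i hi => ?_⟩
  intro x y _
  obtain ⟨x, rfl⟩ := Submodule.Quotient.mk_surjective _ x
  obtain ⟨y, rfl⟩ := Submodule.Quotient.mk_surjective _ y
  rw [Subsingleton.elim x y]

lemma depth_subsingleton {N : Type u} [AddCommGroup N] [Module A N] [Subsingleton N] :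
    depth A N = ⊤ := by
  rw [ENat.eq_top_iff_forall_ge]
  intro n
  have := le_depth_of_list (A := A) (N := N) (rs := List.replicate n (0 : A)) (by
    intro r hr
    rw [List.eq_of_mem_replicate hr]
    exact Submodule.zero_mem _) (weaklyRegular_of_subsingleton n)
  simpa using this

variable (A) in
/-- the residue field as an object of the module category -/
noncomputable abbrev kk : ModuleCat.{u} A := ModuleCat.of A (A ⧸ IsLocalRing.maximalIdeal A)

lemma supp_k : Module.support A (kk A) =
    PrimeSpectrum.zeroLocus (IsLocalRing.maximalIdeal A : Set A) := by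
  rw [Module.support_eq_zeroLocus, Ideal.annihilator_quotient]

lemma smul_lt (N : Type u) [AddCommGroup N] [Module A N] [Module.Finite A N] [Nontrivial N] :
    IsLocalRing.maximalIdeal A • (⊤ : Submodule A N) < ⊤ := by
  rw [lt_top_iff_ne_top]
  exact (Submodule.top_ne_ideal_smul_of_le_jacobson_annihilator
    (IsLocalRing.maximalIdeal_le_jacobson _)).symm

/-- Rees -/
theorem le_depth_iff [IsNoetherianRing A] (N : Type u) [AddCommGroup N] [Module A N]
    [Module.Finite A N] (n : ℕ) :
    (n : ℕ∞) ≤ depth A N ↔ ∀ i < n, Subsingleton (Ext (kk A) (ModuleCat.of A N) i) := by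
  rcases subsingleton_or_nontrivial N with hN | hN
  · rw [depth_subsingleton]
    simp only [le_top, true_iff]
    intro i _
    have hz : Limits.IsZero (ModuleCat.of A N) := ModuleCat.isZero_of_subsingleton _
    refine subsingleton_of_forall_eq 0 fun x => ?_
    have h1 : x.comp (Ext.mk₀ (𝟙 (ModuleCat.of A N))) (add_zero i) = x := Ext.comp_mk₀_id x
    rw [← h1, hz.eq_of_src (𝟙 (ModuleCat.of A N)) 0, Ext.mk₀_zero, Ext.comp_zero]
  · constructor
    · intro h i hi
      obtain ⟨rs, h1, h2, h3⟩ := exists_list_of_le h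
      have hreg : IsRegular N rs := IsRegular.of_isWeaklyRegular_of_mem_maximalIdeal N h1 h2
      exact ModuleCat.subsingleton_ext_of_exists_isRegular (IsLocalRing.maximalIdeal A) (kk A)
        supp_k.le (ModuleCat.of A N) (smul_lt N) rs h1 hreg i (by omega)
    · intro h
      obtain ⟨rs, h1, h2, h3⟩ := ModuleCat.exists_isRegular_of_exists_subsingleton_ext
        (IsLocalRing.maximalIdeal A) n (ModuleCat.of A N) (smul_lt N) (kk A) supp_k h
      rw [← h1]
      exact le_depth_of_list h2 h3.toIsWeaklyRegular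

section ses

variable [IsNoetherianRing A] {X Z Y : Type u} [AddCommGroup X] [Module A X] [AddCommGroup Z]
  [Module A Z] [AddCommGroup Y] [Module A Y] [Module.Finite A X] [Module.Finite A Z]
  [Module.Finite A Y] {f : X →ₗ[A] Z} {g : Z →ₗ[A] Y}

lemma ses (hf : Function.Injective f) (hg : Function.Surjective g) (hfg : Function.Exact f g) :
    (ShortComplex.mk (ModuleCat.ofHom f) (ModuleCat.ofHom g) (by
      ext x
      exact hfg.apply_apply_eq_zero x)).ShortExact := by
  refine ModuleCat.shortComplex_shortExact _ hfg hf hg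

/-- extensions -/
theorem depth_ext (hf : Function.Injective f) (hg : Function.Surjective g)
    (hfg : Function.Exact f g) {d : ℕ∞} (h1 : d ≤ depth A X) (h2 : d ≤ depth A Y) :
    d ≤ depth A Z := by
  rw [← ENat.forall_natCast_le_iff_le]
  intro n hn
  rw [le_depth_iff]
  have e1 := (le_depth_iff X n).1 (hn.trans h1)
  have e2 := (le_depth_iff Y n).1 (hn.trans h2)
  intro i hi
  refine subsingleton_of_forall_eq 0 fun x => ?_
  have := e2 i hi
  obtain ⟨y, hy⟩ := Ext.covariant_sequence_exact₂ (kk A) (ses hf hg hfg) x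
    (Subsingleton.elim _ _)
  have := e1 i hi
  rw [← hy, Subsingleton.elim y 0, Ext.zero_comp]

/-- kernels -/
theorem depth_ker (hf : Function.Injective f) (hg : Function.Surjective g)
    (hfg : Function.Exact f g) {d : ℕ∞} (h1 : d ≤ depth A Z) (h2 : d ≤ depth A Y) :
    d ≤ depth A X := by
  rw [← ENat.forall_natCast_le_iff_le]
  intro n hn
  rw [le_depth_iff]
  have e1 := (le_depth_iff Z n).1 (hn.trans h1)
  have e2 := (le_depth_iff Y n).1 (hn.trans h2)
  intro i hi
  refine subsingleton_of_forall_eq 0 fun x => ?_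
  have := e1 i hi
  rcases i with _ | i
  · -- degree zero
    obtain ⟨φ, rfl⟩ := (Ext.mk₀_bijective _ _).2 x
    have h3 : Ext.mk₀ (φ ≫ ModuleCat.ofHom f) = 0 := Subsingleton.elim _ _
    have h4 : φ ≫ ModuleCat.ofHom f = 0 := by
      apply (Ext.mk₀_bijective _ _).1
      rw [h3, Ext.mk₀_zero]
    have h5 : φ = 0 := by
      have : Mono (ModuleCat.ofHom f) := (ModuleCat.mono_iff_injective _).2 hf
      rw [← cancel_mono (ModuleCat.ofHom f), h4, Limits.zero_comp]
    rw [h5, Ext.mk₀_zero]
  · obtain ⟨y, hy⟩ := Ext.covariant_sequence_exact₁ (kk A) (ses hf hg hfg) x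
      (Subsingleton.elim _ _) rfl
    have := e2 i (by omega)
    rw [← hy, Subsingleton.elim y 0, Ext.zero_comp]

/-- retracts -/
theorem depth_retract (i : X →ₗ[A] Z) (r : Z →ₗ[A] X) (hir : r ∘ₗ i = LinearMap.id) {d : ℕ∞}
    (h : d ≤ depth A Z) : d ≤ depth A X := by
  rw [← ENat.forall_natCast_le_iff_le]
  intro n hn
  rw [le_depth_iff]
  have e1 := (le_depth_iff Z n).1 (hn.trans h)
  intro j hj
  have := e1 j hj
  refine subsingleton_of_forall_eq 0 fun x => ?_
  have h1 : ModuleCat.ofHom i ≫ ModuleCat.ofHom r = 𝟙 _ := by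
    rw [← ModuleCat.ofHom_comp, hir]
    rfl
  have h2 : x = (x.comp (Ext.mk₀ (ModuleCat.ofHom i)) (add_zero j)).comp
      (Ext.mk₀ (ModuleCat.ofHom r)) (add_zero j) := by
    rw [Ext.comp_assoc_of_third_deg_zero, Ext.mk₀_comp_mk₀, h1, Ext.comp_mk₀_id]
  rw [h2, Subsingleton.elim (x.comp (Ext.mk₀ (ModuleCat.ofHom i)) (add_zero j)) 0, Ext.zero_comp]

end ses

end R688.ST
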