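import Pool.Agent.R688.ST.Depth

open CategoryTheory Abelian

universe u

namespace R688.ST

variable {R : Type u} [CommRing R] [IsNoetherianRing R]

section loc

variable (𝔭 : Ideal R) [𝔭.IsPrime]

/-- localization of linear maps -/
noncomputable abbrev lm {X Y : Type u} [AddCommGroup X] [Module R X] [AddCommGroup Y] [Module R Y]
    (f : X →ₗ[R] Y) :
    LocalizedModule 𝔭.primeCompl X →ₗ[Localization.AtPrime 𝔭] LocalizedModule 𝔭.primeCompl Y :=
  LocalizedModule.map 𝔭.primeCompl f

variable {X Y Z : Type u} [AddCommGroup X] [Module R X] [AddCommGroup Y] [Module R Y]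
  [AddCommGroup Z] [Module R Z]

omit [IsNoetherianRing R] in
lemma lm_exact {f : X →ₗ[R] Z} {g : Z →ₗ[R] Y} (h : Function.Exact f g) :
    Function.Exact (lm 𝔭 f) (lm 𝔭 g) :=
  LocalizedModule.map_exact 𝔭.primeCompl f g h

omit [IsNoetherianRing R] in
lemma lm_comp (f : X →ₗ[R] Z) (g : Z →ₗ[R] Y) : lm 𝔭 (g ∘ₗ f) = lm 𝔭 g ∘ₗ lm 𝔭 f := by
  refine LinearMap.ext fun x => ?_
  induction x using LocalizedModule.induction_on with
  | _ m s => simp [LocalizedModule.map_mk]

omit [IsNoetherianRing R] in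
lemma lm_id : lm 𝔭 (LinearMap.id : X →ₗ[R] X) = LinearMap.id := LocalizedModule.map_id _

omit [IsNoetherianRing R] in
lemma subsingleton_loc [Subsingleton X] : Subsingleton (LocalizedModule 𝔭.primeCompl X) := by
  refine ⟨fun x y => ?_⟩
  induction x using LocalizedModule.induction_on with
  | _ m s =>
    induction y using LocalizedModule.induction_on with
    | _ n t =>
      rw [Subsingleton.elim m 0, Subsingleton.elim n 0, LocalizedModule.zero_mk,
        LocalizedModule.zero_mk]

/-- `R_𝔭` as localized module -/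
noncomputable def locR : LocalizedModule 𝔭.primeCompl R ≃ₗ[Localization.AtPrime 𝔭]
    Localization.AtPrime 𝔭 :=
  (IsLocalizedModule.iso 𝔭.primeCompl
    (Algebra.linearMap R (Localization.AtPrime 𝔭))).extendScalarsOfIsLocalization 𝔭.primeCompl
      (Localization.AtPrime 𝔭)

end loc

variable {X Y Z : ModuleCat.{u} R}

lemma IsC.ext (f : X →ₗ[R] Z) (g : Z →ₗ[R] Y) (hf : Function.Injective f)
    (hg : Function.Surjective g) (hfg : Function.Exact f g) (hX : IsC R X) (hY : IsC R Y) :
    IsC R Z := by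
  have := hX.1
  have := hY.1
  have hZ : Module.Finite R Z := by
    have h := isNoetherian_of_range_eq_ker f g hfg.linearMap_ker_eq.symm
    infer_instance
  refine ⟨hZ, fun 𝔭 _ => ?_⟩
  exact depth_ext (LocalizedModule.map_injective _ f hf) (LocalizedModule.map_surjective _ g hg)
    (lm_exact 𝔭 hfg) (hX.2 𝔭) (hY.2 𝔭)

lemma IsC.ker (f : X →ₗ[R] Z) (g : Z →ₗ[R] Y) (hf : Function.Injective f)
    (hg : Function.Surjective g) (hfg : Function.Exact f g) (hZ : IsC R Z) (hY : IsC R Y) :
    IsC R X := by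
  have := hZ.1
  have := hY.1
  have hX : Module.Finite R X := Module.Finite.of_injective f hf
  refine ⟨hX, fun 𝔭 _ => ?_⟩
  exact depth_ker (LocalizedModule.map_injective _ f hf) (LocalizedModule.map_surjective _ g hg)
    (lm_exact 𝔭 hfg) (hZ.2 𝔭) (hY.2 𝔭)

lemma IsC.retract (i : X →ₗ[R] Z) (r : Z →ₗ[R] X) (hir : r ∘ₗ i = LinearMap.id)
    (hZ : IsC R Z) : IsC R X := by
  have := hZ.1
  have hX : Module.Finite R X := Module.Finite.of_surjective r (fun x =>
    ⟨i x, LinearMap.congr_fun hir x⟩)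
  refine ⟨hX, fun 𝔭 _ => ?_⟩
  exact depth_retract (lm 𝔭 i) (lm 𝔭 r) (by rw [← lm_comp, hir, lm_id]) (hZ.2 𝔭)

omit [IsNoetherianRing R] in
lemma IsC.zero (h : Subsingleton X) : IsC R X := by
  refine ⟨inferInstance, fun 𝔭 _ => ?_⟩
  have := subsingleton_loc 𝔭 (X := X)
  rw [depth_subsingleton (N := LocalizedModule 𝔭.primeCompl X)]
  exact le_top

lemma IsC.ring : IsC R (ModuleCat.of R R) := by
  refine ⟨inferInstanceAs (Module.Finite R R), fun 𝔭 _ => ?_⟩
  have : Module.Finite (Localization.AtPrime 𝔭) (LocalizedModule 𝔭.primeCompl R) :=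
    Module.Finite.equiv (locR 𝔭).symm
  exact depth_retract (Z := Localization.AtPrime 𝔭) (X := LocalizedModule 𝔭.primeCompl R)
    (locR 𝔭 : _ →ₗ[Localization.AtPrime 𝔭] _) ((locR 𝔭).symm : _ →ₗ[Localization.AtPrime 𝔭] _)
    (by refine LinearMap.ext fun x => ?_; simp) le_rfl

omit [IsNoetherianRing R] in
lemma fin_ses (n : ℕ) : ∃ (f : R →ₗ[R] (Fin (n + 1) → R)) (g : (Fin (n + 1) → R) →ₗ[R] (Fin n → R)),
    Function.Injective f ∧ Function.Surjective g ∧ Function.Exact f g := by
  refine ⟨LinearMap.single R (fun _ => R) 0, LinearMap.funLeft R R Fin.succ, ?_, ?_, ?_⟩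
  · intro x y hxy
    have := congrFun hxy 0
    simpa using this
  · intro x
    exact ⟨Fin.cons 0 x, by ext j; simp [LinearMap.funLeft_apply]⟩
  · intro x
    constructor
    · intro hx
      refine ⟨x 0, ?_⟩
      ext j
      refine Fin.cases ?_ (fun j => ?_) j
      · simp
      · have := congrFun hx j
        simp only [LinearMap.funLeft_apply, Pi.zero_apply] at this
        simp [this]
    · rintro ⟨y, rfl⟩
      ext j
      simp [LinearMap.funLeft_apply]

/-- free modules -/
lemma IsC.free (n : ℕ) : IsC R (ModuleCat.of R (Fin n → R)) := by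
  induction n with
  | zero => exact IsC.zero (inferInstanceAs (Subsingleton (Fin 0 → R)))
  | succ n ih =>
    obtain ⟨f, g, hf, hg, hfg⟩ := fin_ses (R := R) n
    exact IsC.ext (X := ModuleCat.of R R) (Y := ModuleCat.of R (Fin n → R))
      (Z := ModuleCat.of R (Fin (n + 1) → R)) f g hf hg hfg IsC.ring ih

omit [IsNoetherianRing R] in
/-- local freeness, as local projectivity -/
lemma free_iff_projective (𝔭 : Ideal R) [𝔭.IsPrime] (M : Type u) [AddCommGroup M] [Module R M]
    [Module.Finite R M] :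
    Module.Free (Localization.AtPrime 𝔭) (LocalizedModule 𝔭.primeCompl M) ↔
    Module.Projective (Localization.AtPrime 𝔭) (LocalizedModule 𝔭.primeCompl M) := by
  constructor
  · intro h
    infer_instance
  · intro h
    exact Module.free_of_flat_of_isLocalRing

/-- extensions of projectives -/
lemma projective_ext {A : Type u} [CommRing A] {X Y Z : Type u} [AddCommGroup X] [Module A X]
    [AddCommGroup Y] [Module A Y] [AddCommGroup Z] [Module A Z] {f : X →ₗ[A] Z} {g : Z →ₗ[A] Y}
    (hf : Function.Injective f) (hg : Function.Surjective g) (hfg : Function.Exact f g)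
    (hX : Module.Projective A X) (hY : Module.Projective A Y) : Module.Projective A Z := by
  obtain ⟨l, hl⟩ := Module.projective_lifting_property g LinearMap.id hg
  obtain ⟨e, _⟩ := Function.Exact.splitSurjectiveEquiv hfg hf ⟨l, hl⟩
  exact Module.Projective.of_equiv e.symm

variable {I : Ideal R}

lemma IsCVI.ext (f : X →ₗ[R] Z) (g : Z →ₗ[R] Y) (hf : Function.Injective f)
    (hg : Function.Surjective g) (hfg : Function.Exact f g) (hX : IsCVI R I X)
    (hY : IsCVI R I Y) : IsCVI R I Z := by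
  have hZ := IsC.ext f g hf hg hfg hX.1 hY.1
  have := hX.1.1
  have := hY.1.1
  have := hZ.1
  refine ⟨hZ, fun 𝔭 _ h𝔭 => ?_⟩
  rw [free_iff_projective]
  exact projective_ext (LocalizedModule.map_injective _ f hf)
    (LocalizedModule.map_surjective _ g hg) (lm_exact 𝔭 hfg)
    ((free_iff_projective 𝔭 X).1 (hX.2 𝔭 h𝔭)) ((free_iff_projective 𝔭 Y).1 (hY.2 𝔭 h𝔭))

lemma IsCVI.retract (i : X →ₗ[R] Z) (r : Z →ₗ[R] X) (hir : r ∘ₗ i = LinearMap.id)
    (hZ : IsCVI R I Z) : IsCVI R I X := by
  have hX := IsC.retract i r hir hZ.1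
  have := hX.1
  have := hZ.1.1
  refine ⟨hX, fun 𝔭 _ h𝔭 => ?_⟩
  rw [free_iff_projective]
  have := (free_iff_projective 𝔭 Z).1 (hZ.2 𝔭 h𝔭)
  exact Module.Projective.of_split (lm 𝔭 i) (lm 𝔭 r) (by rw [← lm_comp, hir, lm_id])

omit [IsNoetherianRing R] in
lemma IsCVI.zero (h : Subsingleton X) : IsCVI R I X := by
  refine ⟨IsC.zero h, fun 𝔭 _ h𝔭 => ?_⟩
  have := subsingleton_loc 𝔭 (X := X)
  infer_instance

/-- the class `C_{V(I)}(R)` is stable -/
theorem stable_CVI : IsExtStable R (IsCVI R I) where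
  finite X h := h.1.1
  iso X Y := by
    rintro ⟨e⟩ h
    exact IsCVI.retract (Z := X) (X := Y) (e.symm : Y →ₗ[R] X) (e : X →ₗ[R] Y)
      (by ext x; simp) h
  zero X h := IsCVI.zero h
  sum X Y hX hY := IsCVI.ext (X := X) (Y := Y) (Z := ModuleCat.of R (X × Y))
    (LinearMap.inl R X Y) (LinearMap.snd R X Y) LinearMap.inl_injective LinearMap.snd_surjective
    Function.Exact.inl_snd hX hY
  summand X Y h := IsCVI.retract (X := X) (Z := ModuleCat.of R (X × Y)) (LinearMap.inl R X Y)
    (LinearMap.fst R X Y) (by ext x; simp) h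
  ext X Z Y f g hf hg hfg hX hY := IsCVI.ext f g hf hg hfg hX hY

/-- `C_I(R) ⊆ C_{V(I)}(R)` -/
theorem CI_le_CVI (M : ModuleCat.{u} R) (h : IsCI R I M) : IsCVI R I M := by
  have := h.1.1
  refine ⟨h.1, fun 𝔭 _ h𝔭 => ?_⟩
  rw [free_iff_projective]
  obtain ⟨a, haI, ha𝔭⟩ := Set.not_subset.1 h𝔭
  obtain ⟨P, hP1, hP2, f, g, hfg⟩ := h.2 a haI
  have hPp : Module.Projective (Localization.AtPrime 𝔭) (LocalizedModule 𝔭.primeCompl P) :=
    inferInstance
  have hu : IsUnit (algebraMap R (Localization.AtPrime 𝔭) a) :=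
    IsLocalization.map_units (Localization.AtPrime 𝔭) (⟨a, ha𝔭⟩ : 𝔭.primeCompl)
  obtain ⟨w, hw⟩ := hu
  refine Module.Projective.of_split ((↑w⁻¹ : Localization.AtPrime 𝔭) • lm 𝔭 f) (lm 𝔭 g) ?_
  have h1 : g ∘ₗ f = a • LinearMap.id := LinearMap.ext hfg
  have h2 : lm 𝔭 g ∘ₗ lm 𝔭 f = (algebraMap R (Localization.AtPrime 𝔭) a) • LinearMap.id := by
    rw [← lm_comp, h1]
    refine LinearMap.ext fun x => ?_
    induction x using LocalizedModule.induction_on with
    | _ m s =>
      simp only [lm, LocalizedModule.map_mk, LinearMap.smul_apply, LinearMap.id_apply,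
        algebraMap_smul]
      rw [LocalizedModule.smul'_mk]
  rw [LinearMap.comp_smul, h2, smul_smul, ← hw, Units.inv_mul, one_smul]

end R688.ST
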