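import Pool.Agent.R688.ST.Loc

open CategoryTheory Abelian

universe u

namespace R688.ST

section gen

variable {R : Type u} [CommRing R]

/-- the stable annihilator as an ideal -/
def stAnn (M : ModuleCat.{u} R) : Ideal R where
  carrier := {a | StablyKills R a M}
  add_mem' := by
    rintro a b ⟨P, hP1, hP2, f, g, hfg⟩ ⟨P', hP1', hP2', f', g', hfg'⟩
    refine ⟨ModuleCat.of R (P × P'), inferInstanceAs (Module.Finite R (P × P')),
      inferInstanceAs (Module.Projective R (P × P')), f.prod f', g.coprod g', fun m => ?_⟩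
    change g (f m) + g' (f' m) = _
    rw [hfg, hfg', add_smul]
  zero_mem' := by
    refine ⟨ModuleCat.of R PUnit.{u + 1}, inferInstanceAs (Module.Finite R PUnit.{u + 1}),
      inferInstanceAs (Module.Projective R PUnit.{u + 1}), 0, 0, fun m => ?_⟩
    simp
  smul_mem' := by
    rintro c a ⟨P, hP1, hP2, f, g, hfg⟩
    refine ⟨P, hP1, hP2, f, c • g, fun m => ?_⟩
    rw [LinearMap.smul_apply, hfg, smul_smul, smul_eq_mul]

lemma mem_stAnn {M : ModuleCat.{u} R} {a : R} : a ∈ stAnn M ↔ StablyKills R a M := Iff.rfl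

variable {X : ModuleCat.{u} R} {n : ℕ} (π : (Fin n → R) →ₗ[R] X)

/-- the pullback `E_x = {(u, v) : x u = π v}` -/
def EE (x : R) : Submodule R (X × (Fin n → R)) :=
  LinearMap.ker (x • LinearMap.fst R X (Fin n → R) - π ∘ₗ LinearMap.snd R X (Fin n → R))

variable {π}

lemma mem_EE {x : R} {p : X × (Fin n → R)} : p ∈ EE π x ↔ x • p.1 = π p.2 := by
  simp [EE, LinearMap.mem_ker, sub_eq_zero]

lemma EE_mem (x : R) (p : EE π x) : x • p.1.1 = π p.1.2 := mem_EE.1 p.2

/-- the first exact sequence -/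
lemma EE_seq1 (hπ : Function.Surjective π) (x : R) :
    ∃ (f : LinearMap.ker π →ₗ[R] EE π x) (g : EE π x →ₗ[R] X),
      Function.Injective f ∧ Function.Surjective g ∧ Function.Exact f g := by
  refine ⟨LinearMap.codRestrict (EE π x) (LinearMap.inr R X (Fin n → R) ∘ₗ
    (LinearMap.ker π).subtype) (fun v => mem_EE.2 ?_),
    LinearMap.fst R X (Fin n → R) ∘ₗ (EE π x).subtype, ?_, ?_, ?_⟩
  · have := v.2
    rw [LinearMap.mem_ker] at this
    simp [this]
  · intro v w h
    apply Subtype.ext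
    have h1 := congrArg (fun q : EE π x => q.1.2) h
    exact h1
  · intro u
    obtain ⟨v, hv⟩ := hπ (x • u)
    exact ⟨⟨(u, v), mem_EE.2 hv.symm⟩, rfl⟩
  · intro p
    constructor
    · intro hp
      have hp1 : p.1.1 = 0 := hp
      have h1 := EE_mem x p
      rw [hp1, smul_zero] at h1
      refine ⟨⟨p.1.2, LinearMap.mem_ker.2 h1.symm⟩, ?_⟩
      apply Subtype.ext
      exact Prod.ext hp1.symm rfl
    · rintro ⟨v, rfl⟩
      rfl

/-- `x` stably kills `E_x` -/
lemma EE_kills_self (x : R) : StablyKills R x (ModuleCat.of R (EE π x)) := by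
  refine ⟨ModuleCat.of R (Fin n → R), inferInstanceAs (Module.Finite R (Fin n → R)),
    inferInstanceAs (Module.Projective R (Fin n → R)),
    LinearMap.snd R X (Fin n → R) ∘ₗ (EE π x).subtype,
    LinearMap.codRestrict (EE π x) (π.prod (x • LinearMap.id)) (fun v => mem_EE.2 ?_), ?_⟩
  · simp
  · intro p
    apply Subtype.ext
    refine Prod.ext ?_ rfl
    exact (EE_mem x p).symm

/-- what stably kills `X` stably kills `E_x` -/
lemma EE_kills (hπ : Function.Surjective π) (x a : R) (h : StablyKills R a X) :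
    StablyKills R a (ModuleCat.of R (EE π x)) := by
  obtain ⟨Q, hQ1, hQ2, α, β, hαβ⟩ := h
  obtain ⟨γ, hγ⟩ := Module.projective_lifting_property π β hπ
  have hγ' : ∀ q, π (γ q) = β q := fun q => LinearMap.congr_fun hγ q
  refine ⟨ModuleCat.of R (Q × (Fin n → R)), inferInstanceAs (Module.Finite R (Q × (Fin n → R))),
    inferInstanceAs (Module.Projective R (Q × (Fin n → R))),
    (α.prodMap LinearMap.id) ∘ₗ (EE π x).subtype,
    LinearMap.codRestrict (EE π x)
      ((β ∘ₗ LinearMap.fst R Q (Fin n → R)).prod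
        ((x • γ) ∘ₗ LinearMap.fst R Q (Fin n → R) +
          (a • LinearMap.id - γ ∘ₗ α ∘ₗ π) ∘ₗ LinearMap.snd R Q (Fin n → R)))
      (fun v => mem_EE.2 ?_), ?_⟩
  · simp [hγ', hαβ]
  · intro p
    apply Subtype.ext
    refine Prod.ext ?_ ?_
    · exact hαβ p.1.1
    · change (x • γ) (α p.1.1) +
        (a • (LinearMap.id : (Fin n → R) →ₗ[R] (Fin n → R)) - γ ∘ₗ α ∘ₗ π) p.1.2 = a • p.1.2
      simp only [LinearMap.smul_apply, LinearMap.sub_apply, LinearMap.id_apply,
        LinearMap.comp_apply]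
      rw [← EE_mem x p, map_smul, map_smul]
      abel

/-- the second exact sequence -/
lemma EE_seq2 (hπ : Function.Surjective π) (x y : R) :
    ∃ (f : EE π x →ₗ[R] (EE π (y * x) × (Fin n → R))) (g : (EE π (y * x) × (Fin n → R)) →ₗ[R] EE π y),
      Function.Injective f ∧ Function.Surjective g ∧ Function.Exact f g := by
  let f1 : EE π x →ₗ[R] EE π (y * x) := LinearMap.codRestrict (EE π (y * x))
    (((LinearMap.id).prodMap (y • LinearMap.id)) ∘ₗ (EE π x).subtype) (fun v => mem_EE.2 (by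
      have := EE_mem x v
      simp [mul_smul, this]))
  let f2 : EE π x →ₗ[R] (Fin n → R) := -(LinearMap.snd R X (Fin n → R) ∘ₗ (EE π x).subtype)
  let g1 : EE π (y * x) →ₗ[R] EE π y := LinearMap.codRestrict (EE π y)
    (((x • LinearMap.id).prodMap LinearMap.id) ∘ₗ (EE π (y * x)).subtype) (fun v => mem_EE.2 (by
      have := EE_mem (y * x) v
      rw [mul_smul] at this
      simpa using this))
  let g2 : (Fin n → R) →ₗ[R] EE π y := LinearMap.codRestrict (EE π y)
    (π.prod (y • LinearMap.id)) (fun v => mem_EE.2 (by simp))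
  refine ⟨f1.prod f2, g1.coprod g2, ?_, ?_, ?_⟩
  · intro p q h
    have h1 : f1 p = f1 q := congrArg Prod.fst h
    have h2 : f2 p = f2 q := congrArg Prod.snd h
    apply Subtype.ext
    refine Prod.ext ?_ ?_
    · exact congrArg (fun q : EE π (y * x) => q.1.1) h1
    · exact neg_injective h2
  · intro p
    obtain ⟨w, hw⟩ := hπ p.1.1
    have hp := EE_mem y p
    refine ⟨(⟨(0, p.1.2 - y • w), mem_EE.2 ?_⟩, w), ?_⟩
    · rw [smul_zero, map_sub, map_smul, hw, hp, sub_self]
    · apply Subtype.ext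
      refine Prod.ext ?_ ?_
      · change x • (0 : X) + π w = p.1.1
        rw [smul_zero, zero_add, hw]
      · change (p.1.2 - y • w) + y • w = p.1.2
        rw [sub_add_cancel]
  · intro p
    constructor
    · intro hp
      have hp' : g1 p.1 + g2 p.2 = 0 := hp
      have h1 : x • p.1.1.1 + π p.2 = 0 := congrArg (fun q : EE π y => q.1.1) hp'
      have h2 : p.1.1.2 + y • p.2 = 0 := congrArg (fun q : EE π y => q.1.2) hp'
      refine ⟨⟨(p.1.1.1, -p.2), mem_EE.2 ?_⟩, ?_⟩
      · rw [map_neg]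
        exact eq_neg_of_add_eq_zero_left h1
      · refine Prod.ext ?_ ?_
        · apply Subtype.ext
          refine Prod.ext rfl ?_
          change y • (-p.2) = p.1.1.2
          rw [smul_neg]
          exact (eq_neg_of_add_eq_zero_left h2).symm
        · change -(-p.2) = p.2
          rw [neg_neg]
    · rintro ⟨q, rfl⟩
      have hq := EE_mem x q
      change g1 (f1 q) + g2 (f2 q) = 0
      apply Subtype.ext
      refine Prod.ext ?_ ?_
      · change x • q.1.1 + π (-q.1.2) = 0
        rw [map_neg, hq, add_neg_cancel]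
      · change y • q.1.2 + y • (-q.1.2) = 0
        rw [smul_neg, add_neg_cancel]

/-- the retraction -/
lemma EE_retract {x : R} (s : X →ₗ[R] (Fin n → R)) (hs : ∀ u, π (s u) = x • u) :
    ∃ (i : X →ₗ[R] EE π x) (r : EE π x →ₗ[R] X), r ∘ₗ i = LinearMap.id := by
  refine ⟨LinearMap.codRestrict (EE π x) (LinearMap.id.prod s) (fun u => mem_EE.2 (hs u).symm),
    LinearMap.fst R X (Fin n → R) ∘ₗ (EE π x).subtype, ?_⟩
  ext u
  rfl

lemma IsExtStable.retract {Q : ModuleCat.{u} R → Prop} (hQ : IsExtStable R Q)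
    {X Z : ModuleCat.{u} R} (i : X →ₗ[R] Z) (r : Z →ₗ[R] X) (hir : r ∘ₗ i = LinearMap.id)
    (h : Q Z) : Q X := by
  have hex : Function.Exact (LinearMap.ker r).subtype r := by
    intro x
    simp
  obtain ⟨e, _⟩ := Function.Exact.splitSurjectiveEquiv hex Subtype.val_injective ⟨i, hir⟩
  have h1 : Q (ModuleCat.of R (X × LinearMap.ker r)) :=
    hQ.iso Z _ ⟨e.trans (LinearEquiv.prodComm R _ _)⟩ h
  exact hQ.summand X (ModuleCat.of R (LinearMap.ker r)) h1

/-- powers -/
lemma EE_pow {Q : ModuleCat.{u} R → Prop} (hQ : IsExtStable R Q) (hπ : Function.Surjective π)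
    (x : R) (h : Q (ModuleCat.of R (EE π x))) (m : ℕ) :
    Q (ModuleCat.of R (EE π (x ^ (m + 1)))) := by
  induction m with
  | zero => rw [zero_add, pow_one]; exact h
  | succ m ih =>
    obtain ⟨f, g, hf, hg, hfg⟩ := EE_seq2 hπ (x ^ (m + 1)) x
    have h1 : Q (ModuleCat.of R (EE π (x * x ^ (m + 1)) × (Fin n → R))) :=
      hQ.ext (ModuleCat.of R (EE π (x ^ (m + 1)))) _ (ModuleCat.of R (EE π x)) f g hf hg hfg ih h
    have h2 := hQ.summand (ModuleCat.of R (EE π (x * x ^ (m + 1)))) (ModuleCat.of R (Fin n → R)) h1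
    rw [pow_succ' x (m + 1)]
    exact h2

/-- the ideal of elements which lift along `π` -/
def liftIdeal (π : (Fin n → R) →ₗ[R] X) : Ideal R where
  carrier := {a | ∃ s : X →ₗ[R] (Fin n → R), ∀ u, π (s u) = a • u}
  add_mem' := by
    rintro a b ⟨s, hs⟩ ⟨t, ht⟩
    exact ⟨s + t, fun u => by rw [LinearMap.add_apply, map_add, hs, ht, add_smul]⟩
  zero_mem' := ⟨0, fun u => by simp⟩
  smul_mem' := by
    rintro c a ⟨s, hs⟩
    exact ⟨c • s, fun u => by rw [LinearMap.smul_apply, map_smul, hs, smul_smul, smul_eq_mul]⟩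

end gen

variable {R : Type u} [CommRing R] [IsNoetherianRing R] {I : Ideal R}
variable {X : ModuleCat.{u} R} {n : ℕ} {π : (Fin n → R) →ₗ[R] X}

/-- local splitting -/
lemma not_le_of_projective (hπ : Function.Surjective π) (𝔭 : Ideal R) [𝔭.IsPrime]
    [Module.Finite R X]
    (h : Module.Projective (Localization.AtPrime 𝔭) (LocalizedModule 𝔭.primeCompl X)) :
    ¬ liftIdeal π ≤ 𝔭 := by
  intro hle
  have hfp : Module.FinitePresentation R X := Module.finitePresentation_of_finite R X
  obtain ⟨σ, hσ⟩ := Module.projective_lifting_property (lm 𝔭 π) LinearMap.id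
    (LocalizedModule.map_surjective _ π hπ)
  obtain ⟨t, s, hts⟩ := Module.FinitePresentation.exists_lift_of_isLocalizedModule 𝔭.primeCompl
    (LocalizedModule.mkLinearMap 𝔭.primeCompl (Fin n → R))
    ((σ.restrictScalars R) ∘ₗ LocalizedModule.mkLinearMap 𝔭.primeCompl X)
  obtain ⟨s', hs'⟩ := Module.Finite.exists_smul_of_comp_eq_of_isLocalizedModule 𝔭.primeCompl
    (LocalizedModule.mkLinearMap 𝔭.primeCompl X) (π ∘ₗ t) (s.1 • LinearMap.id) (by
      refine LinearMap.ext fun u => ?_
      have h1 : LocalizedModule.mk (t u) 1 = s.1 • σ (LocalizedModule.mk u 1) :=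
        LinearMap.congr_fun hts u
      have h2 := congrArg (lm 𝔭 π) h1
      have h3 : lm 𝔭 π (σ (LocalizedModule.mk u 1)) = LocalizedModule.mk u 1 :=
        LinearMap.congr_fun hσ _
      have h4 : lm 𝔭 π (LocalizedModule.mk (t u) 1) = LocalizedModule.mk (π (t u)) 1 :=
        LocalizedModule.map_mk _ _ _ _
      have h5 : lm 𝔭 π (s.1 • σ (LocalizedModule.mk u 1)) =
          s.1 • lm 𝔭 π (σ (LocalizedModule.mk u 1)) :=
        LinearMap.map_smul_of_tower _ _ _
      rw [h4, h5, h3] at h2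
      change LocalizedModule.mk (π (t u)) 1 = LocalizedModule.mk (s.1 • u) 1
      rw [h2, LocalizedModule.smul'_mk])
  have hmem : s'.1 * s.1 ∈ liftIdeal π := by
    refine ⟨s'.1 • t, fun u => ?_⟩
    have := LinearMap.congr_fun hs' u
    have h6 : s'.1 • π (t u) = s'.1 • (s.1 • u) := this
    rw [LinearMap.smul_apply, map_smul, h6, smul_smul]
  exact (s' * s).2 (hle hmem)

lemma projective_ker {A : Type u} [CommRing A] {X Y Z : Type u} [AddCommGroup X] [Module A X]
    [AddCommGroup Y] [Module A Y] [AddCommGroup Z] [Module A Z] {f : X →ₗ[A] Z} {g : Z →ₗ[A] Y}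
    (hf : Function.Injective f) (hg : Function.Surjective g) (hfg : Function.Exact f g)
    (hZ : Module.Projective A Z) (hY : Module.Projective A Y) : Module.Projective A X := by
  obtain ⟨l, hl⟩ := Module.projective_lifting_property g LinearMap.id hg
  obtain ⟨e, _⟩ := Function.Exact.splitSurjectiveEquiv hfg hf ⟨l, hl⟩
  refine Module.Projective.of_split ((e.symm : (X × Y) →ₗ[A] Z) ∘ₗ LinearMap.inl A X Y)
    (LinearMap.fst A X Y ∘ₗ (e : Z →ₗ[A] (X × Y))) ?_
  ext x
  simp

lemma IsCVI.syz (hπ : Function.Surjective π) (hX : IsCVI R I X) :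
    IsCVI R I (ModuleCat.of R (LinearMap.ker π)) := by
  have hex : Function.Exact (LinearMap.ker π).subtype π := by
    intro x
    simp
  have hK := IsC.ker (X := ModuleCat.of R (LinearMap.ker π)) (Z := ModuleCat.of R (Fin n → R))
    (Y := X) (LinearMap.ker π).subtype π Subtype.val_injective hπ hex (IsC.free n) hX.1
  have := hK.1
  have := hX.1.1
  refine ⟨hK, fun 𝔭 _ h𝔭 => ?_⟩
  rw [free_iff_projective]
  have h1 := (free_iff_projective 𝔭 X).1 (hX.2 𝔭 h𝔭)
  have h2 : Module.Projective (Localization.AtPrime 𝔭)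
    (LocalizedModule 𝔭.primeCompl (Fin n → R)) := inferInstance
  exact projective_ker (LocalizedModule.map_injective 𝔭.primeCompl (LinearMap.ker π).subtype
    Subtype.val_injective) (LocalizedModule.map_surjective 𝔭.primeCompl π hπ) (lm_exact 𝔭 hex)
    h2 h1

lemma IsCVI.EE (hπ : Function.Surjective π) (hX : IsCVI R I X) (x : R) :
    IsCVI R I (ModuleCat.of R (EE π x)) := by
  obtain ⟨f, g, hf, hg, hfg⟩ := EE_seq1 hπ x
  exact IsCVI.ext (X := ModuleCat.of R (LinearMap.ker π)) (Z := ModuleCat.of R (R688.ST.EE π x))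
    (Y := X) f g hf hg hfg (IsCVI.syz hπ hX) hX

/-- a power of every element of `I` lifts -/
lemma exists_pow_lift (hπ : Function.Surjective π) (hX : IsCVI R I X) {x : R} (hx : x ∈ I) :
    ∃ m : ℕ, x ^ m ∈ liftIdeal π := by
  have : x ∈ (liftIdeal π).radical := by
    rw [Ideal.radical_eq_sInf, Ideal.mem_sInf]
    rintro 𝔭 ⟨hle, h𝔭⟩
    by_contra hx𝔭
    have := hX.1.1
    exact not_le_of_projective hπ 𝔭
      ((free_iff_projective 𝔭 X).1 (hX.2 𝔭 (fun h => hx𝔭 (h hx)))) hle
  exact this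

/-- the main induction -/
theorem main_induction {Q : ModuleCat.{u} R → Prop} (hQ : IsExtStable R Q)
    (hCI : ∀ X, IsCI R I X → Q X) (l : List R) :
    ∀ (X : ModuleCat.{u} R), IsCVI R I X → (∀ a ∈ l, a ∈ I) → I ≤ stAnn X ⊔ Ideal.ofList l →
      Q X := by
  induction l with
  | nil =>
    intro X hX _ h
    rw [Ideal.ofList_nil, sup_bot_eq] at h
    exact hCI X ⟨hX.1, fun a ha => h ha⟩
  | cons x l ih =>
    intro X hX hl h
    have := hX.1.1
    obtain ⟨n, π, hπ⟩ := Module.Finite.exists_fin' R X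
    have h1 : stAnn X ≤ stAnn (ModuleCat.of R (EE π x)) := fun a ha => EE_kills hπ x a ha
    have h2 : x ∈ stAnn (ModuleCat.of R (EE π x)) := EE_kills_self x
    have hE : Q (ModuleCat.of R (EE π x)) := by
      refine ih _ (IsCVI.EE hπ hX x) (fun a ha => hl a (by simp [ha])) (h.trans ?_)
      rw [Ideal.ofList_cons]
      refine sup_le (h1.trans le_sup_left) (sup_le ?_ le_sup_right)
      rw [Ideal.span_le, Set.singleton_subset_iff]
      exact le_sup_left (a := stAnn (ModuleCat.of R (EE π x))) h2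
    obtain ⟨m, hm⟩ := exists_pow_lift hπ hX (hl x (by simp))
    have hm' : x ^ (m + 1) ∈ liftIdeal π := by
      rw [pow_succ]
      exact Ideal.mul_mem_right _ _ hm
    obtain ⟨s, hs⟩ := hm'
    obtain ⟨i, r, hir⟩ := EE_retract s hs
    exact hQ.retract (Z := ModuleCat.of R (EE π (x ^ (m + 1)))) i r hir (EE_pow hQ hπ x hE m)

/-- `ext_R(C_I(R)) = C_{V(I)}(R)` -/
theorem ext_eq (I : Ideal R) (M : ModuleCat.{u} R) :
    ExtClosure R (IsCI R I) M ↔ IsCVI R I M := by
  constructor
  · intro h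
    exact h _ stable_CVI CI_le_CVI
  · intro hM Q hQ hCI
    obtain ⟨s, hs⟩ := (IsNoetherian.noetherian I : I.FG)
    refine main_induction hQ hCI s.toList M hM ?_ ?_
    · intro a ha
      rw [← hs]
      exact Ideal.subset_span (by simpa using ha)
    · refine le_trans ?_ le_sup_right
      rw [← hs]
      apply Ideal.span_mono
      intro a ha
      simpa using ha

end R688.ST
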